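import Mathlib

/-!
# Cover number of r-partite hypergraphs with pairwise intersecting edge covers (MP_39270e_co)
-/

open Finset
open scoped ENNReal

namespace Pool.Agent.R982.HC

/-- An `r`-partite `r`-graph: the vertices of the part `i` are the pairs `(i, a)`, `a : ℕ`, and an
edge is given by its vertices in the parts, i.e. by a function `Fin r → ℕ`. -/
abbrev HG (r : ℕ) := Finset (Fin r → ℕ)

/-- `W` is a cover: a set of vertices meeting every edge. -/
def IsCover {r : ℕ} (H : HG r) (W : Finset (Fin r × ℕ)) : Prop :=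
  ∀ e ∈ H, ∃ i, (i, e i) ∈ W

/-- The cover number. -/
noncomputable def tau {r : ℕ} (H : HG r) : ℕ∞ :=
  ⨅ (W : Finset (Fin r × ℕ)) (_ : IsCover H W), (#W : ℕ∞)

/-- `H` is `k`-intersectingly covered. -/
def IntCovered {r : ℕ} (k : ℕ) (H : HG r) : Prop :=
  ∃ c : Finset (Fin r → ℕ) → (Fin r → ℕ),
    (∀ S ⊆ H, #S ≤ k → c S ∈ H ∧ ∀ e ∈ S, ∃ i, c S i = e i) ∧
    (∀ S ⊆ H, ∀ S' ⊆ H, #S ≤ k → #S' ≤ k → ∃ i, c S i = c S' i)

/-- `f_r(k)`: the supremum of the cover numbers of `k`-intersectingly covered `r`-partite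
`r`-graphs. -/
noncomputable def f (r k : ℕ) : ℕ∞ :=
  ⨆ H : {H : HG r // IntCovered k H}, tau H.1

/-- Robust structure: every set `C` of at most `n0` pairs (coordinate, symbol) is avoided by a
partial transversal `T` which misses at most `u` elements of `V`. -/
def Robust (s : ℕ) (V S : Type) [Fintype V] [Fintype S] (x : Fin s → V → S) (n0 u : ℕ) : Prop :=
  ∀ C : Finset (Fin s × S), #C ≤ n0 → ∃ T : Fin s → Option S,
    (∀ j c, T j = some c → (j, c) ∉ C) ∧ Nat.card {v : V // ∀ j, T j ≠ some (x j v)} ≤ u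

/-- Piece HC-1: from a robust structure to a lower bound for `f`, by a product of `B` blocks. -/
def St_Hyp : Prop :=
  ∀ (s : ℕ) (V S : Type) [Fintype V] [Nonempty V] [Fintype S] (x : Fin s → V → S) (n0 u : ℕ),
    Robust s V S x n0 u →
    ∀ (B r k t : ℕ), B * s + 1 ≤ r → 2 * t ≤ B * n0 →
      (∀ g : ℕ, B ≤ 2 * g → g ≤ B →
        (k : ℝ) * ((u : ℝ) / (Fintype.card V : ℝ)) ^ g < 1) →
      ((t + 1 : ℕ) : ℕ∞) ≤ f r k

/-- Existence of robust structures (already proved: `Pool.Agent.R982.HC.Main.robust_ok`). -/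
def St_Robust : Prop :=
  ∀ lam : ℕ, 1 ≤ lam → ∃ N0 : ℕ, ∀ p : ℕ, p.Prime → N0 ≤ p →
    ∃ (V S : Type) (_ : Fintype V) (_ : Nonempty V) (_ : Fintype S) (x : Fin (64 * p) → V → S),
      Fintype.card V = lam * p ∧ Robust (64 * p) V S x (4 * p ^ 2) (2 * p)

/-- Piece HC-2: the final result from `St_Hyp` and `St_Robust` (choice of parameters). -/
def St_Final : Prop :=
  ∀ K : ℝ, ∃ (R0 : ℕ) (a : ℝ), 0 < a ∧ ∀ r k : ℕ, R0 ≤ r → r ≤ k → Real.log k ≤ a * r →
    ENNReal.ofReal (K * (r : ℝ) ^ 2 / Real.log k) ≤ ((f r k : ℕ∞) : ℝ≥0∞)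

end Pool.Agent.R982.HC
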