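import Mathlib
import Pool.Agent.R982.HC.Defs

/-! Project HC, piece HC-2: choice of the parameters. -/

set_option autoImplicit false

open Finset
open scoped ENNReal

namespace Pool.Agent.R982.HC.Final

theorem final_of (h1 : St_Hyp) (h2 : St_Robust) : St_Final := by
  intro K
  set K' : ℝ := max K 1 with hK'
  have hK1 : 1 ≤ K' := le_max_right _ _
  have hKK : K ≤ K' := le_max_left _ _
  set lam : ℕ := 2 * ⌈Real.exp (32768 * K')⌉₊ + 8 with hlam
  have hlam8 : 8 ≤ lam := by omega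
  set ell : ℝ := Real.log ((lam : ℝ) / 2) with hell
  have hlamR : (8 : ℝ) ≤ lam := by exact_mod_cast hlam8
  have hellK : 32768 * K' ≤ ell := by
    rw [hell, Real.le_log_iff_exp_le (by linarith)]
    have h3 := Nat.le_ceil (Real.exp (32768 * K'))
    have h4 : (lam : ℝ) = 2 * (⌈Real.exp (32768 * K')⌉₊ : ℝ) + 8 := by
      rw [hlam]; push_cast; ring
    rw [h4]
    linarith
  have hell0 : 0 < ell := by linarith
  obtain ⟨N0, hN0⟩ := h2 lam (by omega)
  have hN0' : (0 : ℝ) < (N0 : ℝ) + 1 := by positivity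
  refine ⟨lam, ell / (1024 * ((N0 : ℝ) + 1)), by positivity, ?_⟩
  intro r k hr hrk hlog
  have hr8 : 8 ≤ r := le_trans hlam8 hr
  have hk8 : 8 ≤ k := le_trans hr8 hrk
  have hrR : (8 : ℝ) ≤ r := by exact_mod_cast hr8
  have hkR : (8 : ℝ) ≤ k := by exact_mod_cast hk8
  set L : ℝ := Real.log k with hL
  have hLell : ell ≤ L := by
    rw [hell, hL]
    refine Real.log_le_log (by linarith) ?_
    have : (lam : ℝ) ≤ k := by exact_mod_cast le_trans hr hrk
    linarith
  have hL0 : 0 < L := by linarith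
  set B : ℕ := ⌈2 * L / ell⌉₊ + 1 with hB
  have hB1 : 2 * L / ell < B := by
    rw [hB]
    push_cast
    have := Nat.le_ceil (2 * L / ell)
    linarith
  have hB2 : (B : ℝ) * ell ≤ 4 * L := by
    have h3 : (⌈2 * L / ell⌉₊ : ℝ) < 2 * L / ell + 1 := Nat.ceil_lt_add_one (by positivity)
    have h4 : (B : ℝ) ≤ 2 * L / ell + 2 := by
      rw [hB]
      push_cast
      linarith
    have h5 : (2 * L / ell + 2) * ell = 2 * L + 2 * ell := by
      field_simp
    calc (B : ℝ) * ell ≤ (2 * L / ell + 2) * ell := mul_le_mul_of_nonneg_right h4 hell0.le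
      _ = 2 * L + 2 * ell := h5
      _ ≤ 4 * L := by linarith
  have hBpos : 0 < B := by omega
  have hBR : (0 : ℝ) < B := by exact_mod_cast hBpos
  -- 128 * B * (N0 + 1) ≤ r - 1
  have hsize : 128 * B * (N0 + 1) ≤ r - 1 := by
    have h3 : (128 * B * (N0 + 1) : ℝ) * 2 ≤ r := by
      have h4 : L * (1024 * ((N0 : ℝ) + 1)) ≤ ell * r := by
        rw [div_mul_eq_mul_div, le_div_iff₀ (by positivity)] at hlog
        exact hlog
      have h5 : ((B : ℝ) * ell) * (256 * ((N0 : ℝ) + 1)) ≤ 4 * L * (256 * ((N0 : ℝ) + 1)) :=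
        mul_le_mul_of_nonneg_right hB2 (by positivity)
      have h6 : ell * (128 * B * (N0 + 1) * 2) ≤ ell * r := by nlinarith
      exact le_of_mul_le_mul_left h6 hell0
    have h7 : 128 * B * (N0 + 1) * 2 ≤ r := by exact_mod_cast h3
    omega
  set m : ℕ := (r - 1) / (128 * B) with hm
  have h128 : 0 < 128 * B := by omega
  have hmN : N0 + 1 ≤ m := by
    rw [hm, Nat.le_div_iff_mul_le h128, mul_comm]
    exact hsize
  obtain ⟨p, hp, hmp, hp2⟩ := Nat.exists_prime_lt_and_le_two_mul m (by omega)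
  obtain ⟨V, S, _, _, _, x, hcard, hrob⟩ := hN0 p hp (by omega)
  have hpm : 128 * B * m ≤ r - 1 := Nat.mul_div_le _ _
  have hsr : B * (64 * p) + 1 ≤ r := by
    have : B * (64 * p) ≤ 128 * B * m := by
      calc B * (64 * p) ≤ B * (64 * (2 * m)) := Nat.mul_le_mul_left _ (Nat.mul_le_mul_left _ hp2)
        _ = 128 * B * m := by ring
    omega
  have hrp : r ≤ 128 * B * p := by
    have h3 : r - 1 < 128 * B * (m + 1) := Nat.lt_mul_div_succ _ h128
    have h4 : 128 * B * (m + 1) ≤ 128 * B * p := Nat.mul_le_mul_left _ hmp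
    omega
  have hp0 : (0 : ℝ) < p := by exact_mod_cast hp.pos
  have hmain := h1 (64 * p) V S x (4 * p ^ 2) (2 * p) hrob B r k (2 * p ^ 2 * B) hsr
    (le_of_eq (by ring)) (by
      intro g hg _
      have e1 : (((2 * p : ℕ) : ℝ) / (Fintype.card V : ℝ)) = ((lam : ℝ) / 2)⁻¹ := by
        rw [hcard]
        push_cast
        field_simp
      rw [e1]
      have e2 : ((lam : ℝ) / 2) = Real.exp ell := by
        rw [hell, Real.exp_log (by linarith)]
      have e3 : (k : ℝ) = Real.exp L := by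
        rw [hL, Real.exp_log (by linarith)]
      rw [e2, e3, ← Real.exp_neg, ← Real.exp_nat_mul, ← Real.exp_add, Real.exp_lt_one_iff]
      have e4 : (B : ℝ) ≤ 2 * g := by exact_mod_cast hg
      have e5 : 2 * L < (B : ℝ) * ell := by
        rwa [div_lt_iff₀ hell0] at hB1
      nlinarith)
  have hR : K * (r : ℝ) ^ 2 / L ≤ ((2 * p ^ 2 * B + 1 : ℕ) : ℝ) := by
    rw [div_le_iff₀ hL0]
    have e1 : (r : ℝ) ≤ 128 * B * p := by exact_mod_cast hrp
    have e2 : (r : ℝ) ^ 2 ≤ (128 * B * p) ^ 2 := by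
      exact pow_le_pow_left₀ (by linarith) e1 2
    have e3 : 8192 * K' * B ≤ L := by
      have : 32768 * K' * B ≤ 4 * L := by nlinarith
      linarith
    have e4 : K' * (r : ℝ) ^ 2 ≤ K' * (128 * B * p) ^ 2 := mul_le_mul_of_nonneg_left e2 (by linarith)
    have e5 : K' * (128 * (B : ℝ) * p) ^ 2 = (8192 * K' * B) * (2 * p ^ 2 * B) := by ring
    have e6 : (8192 * K' * B) * (2 * (p : ℝ) ^ 2 * B) ≤ L * (2 * p ^ 2 * B) :=
      mul_le_mul_of_nonneg_right e3 (by positivity)
    have e7 : K * (r : ℝ) ^ 2 ≤ K' * (r : ℝ) ^ 2 := mul_le_mul_of_nonneg_right hKK (by positivity)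
    push_cast
    nlinarith
  calc ENNReal.ofReal (K * (r : ℝ) ^ 2 / L)
      ≤ ENNReal.ofReal ((2 * p ^ 2 * B + 1 : ℕ) : ℝ) := ENNReal.ofReal_le_ofReal hR
    _ = (((2 * p ^ 2 * B + 1 : ℕ) : ℕ∞) : ℝ≥0∞) := by
        rw [ENNReal.ofReal_natCast]
        rfl
    _ ≤ ((f r k : ℕ∞) : ℝ≥0∞) := by
        exact_mod_cast hmain

end Pool.Agent.R982.HC.Final
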