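import Pool.Agent.R982.HC.Defs

/-! # HC-1: from a robust structure to a lower bound for `f`, by a product of blocks -/

set_option autoImplicit false

namespace Pool.Agent.R982.HC.Hyp

open Finset
open scoped Classical in
section

variable {s B r k t u n0 : ℕ} {V S : Type} [Fintype V] [Fintype S]

/-- the place of the coordinate `j` of the block `b` -/
def pos (hr : B * s + 1 ≤ r) (b : Fin B) (j : Fin s) : Fin r :=
  Fin.castLE (by omega) (finProdFinEquiv (b, j))

/-- the inverse -/
def dec (i : Fin r) : Option (Fin B × Fin s) :=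
  if h : i.1 < B * s then some (finProdFinEquiv.symm ⟨i.1, h⟩) else none

theorem dec_pos (hr : B * s + 1 ≤ r) (b : Fin B) (j : Fin s) : dec (pos hr b j) = some (b, j) := by
  unfold dec pos
  have h : (Fin.castLE (by omega : B * s ≤ r) (finProdFinEquiv (b, j))).1 < B * s := by
    rw [Fin.val_castLE]
    exact (finProdFinEquiv (b, j)).2
  rw [dif_pos h]
  congr 1
  have e : (⟨(Fin.castLE (by omega : B * s ≤ r) (finProdFinEquiv (b, j))).1, h⟩ : Fin (B * s))
      = finProdFinEquiv (b, j) := by
    ext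
    rw [Fin.val_castLE]
  rw [e, Equiv.symm_apply_apply]

theorem pos_dec (hr : B * s + 1 ≤ r) {i : Fin r} {b : Fin B} {j : Fin s}
    (h : dec i = some (b, j)) : i = pos hr b j := by
  unfold dec at h
  split_ifs at h with hi
  rw [Option.some.injEq] at h
  unfold pos
  rw [← h, Equiv.apply_symm_apply]
  ext
  rfl

theorem pos_inj (hr : B * s + 1 ≤ r) {b b' : Fin B} {j j' : Fin s}
    (h : pos hr b j = pos hr b' j') : b = b' ∧ j = j' := by
  have h1 := dec_pos hr b j
  rw [h, dec_pos] at h1
  rw [Option.some.injEq, Prod.mk.injEq] at h1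
  exact ⟨h1.1.symm, h1.2.symm⟩

/-- the additional part -/
def ex (hr : B * s + 1 ≤ r) : Fin r := ⟨B * s, by omega⟩

theorem dec_ex (hr : B * s + 1 ≤ r) : dec (B := B) (s := s) (ex hr) = none := by
  unfold dec ex
  rw [dif_neg (lt_irrefl _)]

/-- mass edges -/
def mE (code : Option (S ⊕ Fin (t + 1)) → ℕ) (x : Fin s → V → S) (e : Fin B → V) (i : Fin r) : ℕ :=
  match (dec i : Option (Fin B × Fin s)) with
  | some (b, j) => code (some (Sum.inl (x j (e b))))
  | none => code none

/-- outliers -/
def oE (code : Option (S ⊕ Fin (t + 1)) → ℕ) (T : (Fin B → Fin s → Option S) × Fin (t + 1))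
    (i : Fin r) : ℕ :=
  match (dec i : Option (Fin B × Fin s)) with
  | some (b, j) =>
    match T.1 b j with
    | some y => code (some (Sum.inl y))
    | none => code (some (Sum.inr T.2))
  | none => code (some (Sum.inr T.2))

theorem mE_pos (hr : B * s + 1 ≤ r) (code : Option (S ⊕ Fin (t + 1)) → ℕ) (x : Fin s → V → S)
    (e : Fin B → V) (b : Fin B) (j : Fin s) :
    mE code x e (pos hr b j) = code (some (Sum.inl (x j (e b)))) := by
  unfold mE
  rw [dec_pos]

theorem mE_ex (hr : B * s + 1 ≤ r) (code : Option (S ⊕ Fin (t + 1)) → ℕ) (x : Fin s → V → S)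
    (e : Fin B → V) : mE code x e (ex hr) = code none := by
  unfold mE
  rw [dec_ex]

theorem oE_some (hr : B * s + 1 ≤ r) (code : Option (S ⊕ Fin (t + 1)) → ℕ)
    (T : (Fin B → Fin s → Option S) × Fin (t + 1)) (b : Fin B) (j : Fin s) {y : S}
    (h : T.1 b j = some y) : oE code T (pos hr b j) = code (some (Sum.inl y)) := by
  unfold oE
  rw [dec_pos]
  simp only [h]

theorem oE_none (hr : B * s + 1 ≤ r) (code : Option (S ⊕ Fin (t + 1)) → ℕ)
    (T : (Fin B → Fin s → Option S) × Fin (t + 1)) (b : Fin B) (j : Fin s)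
    (h : T.1 b j = none) : oE code T (pos hr b j) = code (some (Sum.inr T.2)) := by
  unfold oE
  rw [dec_pos]
  simp only [h]

theorem oE_out (code : Option (S ⊕ Fin (t + 1)) → ℕ)
    (T : (Fin B → Fin s → Option S) × Fin (t + 1)) {i : Fin r}
    (h : dec (B := B) (s := s) i = none) : oE code T i = code (some (Sum.inr T.2)) := by
  unfold oE
  rw [h]

open scoped Classical in
/-- the mass edges missed by `T` -/
noncomputable def missed (x : Fin s → V → S) (T : Fin B → Fin s → Option S) :
    Finset (Fin B → V) :=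
  univ.filter fun e => ∀ b j, T b j ≠ some (x j (e b))

open scoped Classical in
/-- the hypergraph -/
noncomputable def HH (r k : ℕ) (code : Option (S ⊕ Fin (t + 1)) → ℕ) (x : Fin s → V → S) (B : ℕ) :
    HG r :=
  (univ.image fun e : Fin B → V => mE code x e) ∪
    ((univ.filter fun T : (Fin B → Fin s → Option S) × Fin (t + 1) =>
      k * #(missed x T.1) < Fintype.card V ^ B).image fun T => oE code T)

theorem mem_HH {r k : ℕ} {code : Option (S ⊕ Fin (t + 1)) → ℕ} {x : Fin s → V → S} {B : ℕ}
    {g : Fin r → ℕ} : g ∈ HH r k code x B ↔ (∃ e : Fin B → V, mE code x e = g) ∨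
      ∃ T : (Fin B → Fin s → Option S) × Fin (t + 1),
        k * #(missed x T.1) < Fintype.card V ^ B ∧ oE code T = g := by
  unfold HH
  rw [mem_union, mem_image, mem_image]
  constructor
  · rintro (⟨e, _, h⟩ | ⟨T, h1, h2⟩)
    · exact Or.inl ⟨e, h⟩
    · exact Or.inr ⟨T, (mem_filter.1 h1).2, h2⟩
  · rintro (⟨e, h⟩ | ⟨T, h1, h2⟩)
    · exact Or.inl ⟨e, mem_univ _, h⟩
    · exact Or.inr ⟨T, mem_filter.2 ⟨mem_univ _, h1⟩, h2⟩

open scoped Classical in
theorem int_cov [Nonempty V] (hr : B * s + 1 ≤ r) (code : Option (S ⊕ Fin (t + 1)) → ℕ)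
    (x : Fin s → V → S) : IntCovered k (HH r k code x B) := by
  have hM : 0 < Fintype.card V ^ B := pow_pos Fintype.card_pos _
  have hex : ∀ Q : Finset (Fin r → ℕ), ∃ e : Fin B → V, Q ⊆ HH r k code x B → #Q ≤ k →
      ∀ g ∈ Q, ∃ i, mE code x e i = g i := by
    intro Q
    by_cases hQ : Q ⊆ HH r k code x B ∧ #Q ≤ k
    · obtain ⟨hQ1, hQ2⟩ := hQ
      set bd : (Fin r → ℕ) → Finset (Fin B → V) := fun g =>
        univ.filter fun e => ∀ i, mE code x e i ≠ g i with hbd
      have hb : ∀ g ∈ Q, k * #(bd g) < Fintype.card V ^ B := by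
        intro g hg
        rcases mem_HH.1 (hQ1 hg) with ⟨e', he'⟩ | ⟨T, hT, hTg⟩
        · have : bd g = ∅ := by
            rw [hbd]
            refine filter_eq_empty_iff.2 fun e _ h => h (ex hr) ?_
            rw [← he', mE_ex, mE_ex]
          rw [this, card_empty, mul_zero]
          exact hM
        · refine lt_of_le_of_lt (Nat.mul_le_mul_left _ (card_le_card ?_)) hT
          intro e he
          rw [hbd, mem_filter] at he
          unfold missed
          rw [mem_filter]
          refine ⟨mem_univ _, fun b j h => he.2 (pos hr b j) ?_⟩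
          rw [← hTg, mE_pos, oE_some hr code T b j h]
      have hlt : #(Q.biUnion bd) < Fintype.card V ^ B := by
        rcases Q.eq_empty_or_nonempty with h0 | h0
        · rw [h0, biUnion_empty, card_empty]
          exact hM
        · have hk : 0 < k := lt_of_lt_of_le (card_pos.2 h0) hQ2
          have h1 : k * #(Q.biUnion bd) < k * Fintype.card V ^ B := by
            calc k * #(Q.biUnion bd) ≤ k * ∑ g ∈ Q, #(bd g) :=
                  Nat.mul_le_mul_left _ card_biUnion_le
              _ = ∑ g ∈ Q, k * #(bd g) := by rw [mul_sum]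
              _ < ∑ _g ∈ Q, Fintype.card V ^ B := sum_lt_sum_of_nonempty h0 hb
              _ = #Q * Fintype.card V ^ B := by rw [sum_const, smul_eq_mul]
              _ ≤ k * Fintype.card V ^ B := Nat.mul_le_mul_right _ hQ2
          exact lt_of_mul_lt_mul_left h1 (Nat.zero_le _)
      have hne : ∃ e : Fin B → V, e ∉ Q.biUnion bd := by
        by_contra hcon
        push Not at hcon
        have h1 : #(univ : Finset (Fin B → V)) ≤ #(Q.biUnion bd) :=
          card_le_card fun e _ => hcon e
        rw [card_univ, Fintype.card_fun, Fintype.card_fin] at h1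
        omega
      obtain ⟨e, he⟩ := hne
      refine ⟨e, fun _ _ g hg => ?_⟩
      by_contra hcon
      push Not at hcon
      exact he (mem_biUnion.2 ⟨g, hg, mem_filter.2 ⟨mem_univ _, hcon⟩⟩)
    · exact ⟨fun _ => Classical.arbitrary V, fun h1 h2 => absurd ⟨h1, h2⟩ hQ⟩
  choose e he using hex
  refine ⟨fun Q => mE code x (e Q), fun Q hQ hk => ⟨mem_HH.2 (Or.inl ⟨e Q, rfl⟩), he Q hQ hk⟩,
    fun Q _ Q' _ _ _ => ⟨ex hr, ?_⟩⟩
  show mE code x (e Q) (ex hr) = mE code x (e Q') (ex hr)
  rw [mE_ex, mE_ex]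

open scoped Classical in
theorem tau_ge [Nonempty V] (hr : B * s + 1 ≤ r) {code : Option (S ⊕ Fin (t + 1)) → ℕ}
    (hcode : Function.Injective code) {x : Fin s → V → S} (hR : Robust s V S x n0 u)
    (ht : 2 * t ≤ B * n0) (hg : ∀ g : ℕ, B ≤ 2 * g → g ≤ B →
      (k : ℝ) * ((u : ℝ) / (Fintype.card V : ℝ)) ^ g < 1) (W : Finset (Fin r × ℕ))
    (hW : IsCover (HH r k code x B) W) : t + 1 ≤ #W := by
  by_contra hcon
  have hWt : #W ≤ t := by omega
  -- a free colour
  obtain ⟨c, hc⟩ : ∃ c : Fin (t + 1), ∀ i, (i, code (some (Sum.inr c))) ∉ W := by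
    by_contra hcon2
    push Not at hcon2
    choose i hi using hcon2
    have h1 : #(univ : Finset (Fin (t + 1))) ≤ #W := by
      refine card_le_card_of_injOn (fun c => (i c, code (some (Sum.inr c))))
        (fun c _ => hi c) fun c _ c' _ h => ?_
      simp only [Prod.mk.injEq] at h
      have := hcode h.2
      simpa using this
    rw [card_univ, Fintype.card_fin] at h1
    omega
  -- the sets in the blocks
  set C : Fin B → Finset (Fin s × S) := fun b =>
    univ.filter fun p => (pos hr b p.1, code (some (Sum.inl p.2))) ∈ W with hC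
  have hsum : ∑ b, #(C b) ≤ t := by
    refine le_trans ?_ hWt
    rw [← card_sigma]
    refine card_le_card_of_injOn (fun q => (pos hr q.1 q.2.1, code (some (Sum.inl q.2.2))))
      (fun q hq => ?_) fun q _ q' _ h => ?_
    · have := (mem_sigma.1 hq).2
      rw [hC, mem_filter] at this
      exact this.2
    · simp only [Prod.mk.injEq] at h
      obtain ⟨h1, h2⟩ := pos_inj hr h.1
      have h3 := hcode h.2
      simp only [Option.some.injEq, Sum.inl.injEq] at h3
      obtain ⟨b, j, y⟩ := q
      obtain ⟨b', j', y'⟩ := q'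
      simp only at h1 h2 h3
      subst h1 h2 h3
      rfl
  have hT : ∀ b : Fin B, ∃ T : Fin s → Option S, (∀ j c, T j = some c → (j, c) ∉ C b) ∧
      (#(C b) ≤ n0 → Nat.card {v : V // ∀ j, T j ≠ some (x j v)} ≤ u) := by
    intro b
    by_cases h : #(C b) ≤ n0
    · obtain ⟨T, hT1, hT2⟩ := hR (C b) h
      exact ⟨T, hT1, fun _ => hT2⟩
    · exact ⟨fun _ => none, fun j c hjc => by simp at hjc, fun h' => absurd h' h⟩
  choose T hT1 hT2 using hT
  -- good and bad blocks
  set Gd : Finset (Fin B) := univ.filter fun b => #(C b) ≤ n0 with hGd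
  set Bd : Finset (Fin B) := univ.filter fun b => ¬ #(C b) ≤ n0 with hBd
  have hcard : #Gd + #Bd = B := by
    have := card_filter_add_card_filter_not (s := (univ : Finset (Fin B)))
      (fun b => #(C b) ≤ n0)
    rw [card_univ, Fintype.card_fin] at this
    exact this
  have hβ : #Bd * (n0 + 1) ≤ t := by
    calc #Bd * (n0 + 1) = ∑ _b ∈ Bd, (n0 + 1) := by rw [sum_const, smul_eq_mul]
      _ ≤ ∑ b ∈ Bd, #(C b) := by
          refine sum_le_sum fun b hb => ?_
          have := (mem_filter.1 hb).2
          omega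
      _ ≤ ∑ b, #(C b) := sum_le_sum_of_subset (subset_univ _)
      _ ≤ t := hsum
  have hβ2 : 2 * #Bd ≤ B := by
    have h1 : 2 * #Bd * (n0 + 1) ≤ B * (n0 + 1) := by
      calc 2 * #Bd * (n0 + 1) = 2 * (#Bd * (n0 + 1)) := by ring
        _ ≤ 2 * t := Nat.mul_le_mul_left _ hβ
        _ ≤ B * n0 := ht
        _ ≤ B * (n0 + 1) := Nat.mul_le_mul_left _ (Nat.le_succ _)
    exact Nat.le_of_mul_le_mul_right h1 (Nat.succ_pos _)
  -- the number of missed edges
  have hmiss : #(missed x T) ≤ u ^ #Gd * Fintype.card V ^ #Bd := by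
    have e1 : missed x T
        = Fintype.piFinset fun b => univ.filter fun v => ∀ j, T b j ≠ some (x j v) := by
      ext e
      unfold missed
      rw [mem_filter, Fintype.mem_piFinset]
      constructor
      · rintro ⟨_, h⟩ b
        exact mem_filter.2 ⟨mem_univ _, h b⟩
      · intro h
        exact ⟨mem_univ _, fun b => (mem_filter.1 (h b)).2⟩
    rw [e1, Fintype.card_piFinset, ← prod_filter_mul_prod_filter_not univ
      (fun b => #(C b) ≤ n0)]
    refine Nat.mul_le_mul ?_ ?_
    · refine prod_le_pow_card _ _ _ fun b hb => ?_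
      have h1 := hT2 b (mem_filter.1 hb).2
      rw [Nat.card_eq_fintype_card, Fintype.card_subtype] at h1
      exact h1
    · refine prod_le_pow_card _ _ _ fun b _ => ?_
      exact card_le_univ _
  have hM : 0 < Fintype.card V := Fintype.card_pos
  have hMR : (0 : ℝ) < (Fintype.card V : ℝ) := by exact_mod_cast hM
  have hgood : k * #(missed x T) < Fintype.card V ^ B := by
    have h1 := hg #Gd (by omega) (by omega)
    rw [div_pow, ← mul_div_assoc, div_lt_one (by positivity)] at h1
    have h2 : k * u ^ #Gd < Fintype.card V ^ #Gd := by exact_mod_cast h1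
    calc k * #(missed x T) ≤ k * (u ^ #Gd * Fintype.card V ^ #Bd) :=
          Nat.mul_le_mul_left _ hmiss
      _ = k * u ^ #Gd * Fintype.card V ^ #Bd := by ring
      _ < Fintype.card V ^ #Gd * Fintype.card V ^ #Bd :=
          Nat.mul_lt_mul_of_pos_right h2 (pow_pos hM _)
      _ = Fintype.card V ^ B := by rw [← pow_add, hcard]
  -- the outlier
  obtain ⟨i, hi⟩ := hW (oE code (T, c)) (mem_HH.2 (Or.inr ⟨(T, c), hgood, rfl⟩))
  rcases hd : dec (B := B) (s := s) i with _ | ⟨b, j⟩
  · rw [oE_out code (T, c) hd] at hi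
    exact hc i hi
  · have hi' := pos_dec hr hd
    rw [hi'] at hi
    rcases hTb : T b j with _ | y
    · rw [oE_none hr code (T, c) b j hTb] at hi
      exact hc _ hi
    · rw [oE_some hr code (T, c) b j hTb] at hi
      exact hT1 b j y hTb (mem_filter.2 ⟨mem_univ _, hi⟩)

end

theorem hyp_ok : St_Hyp := by
  intro s V S _ _ _ x n0 u hR B r k t hr ht hg
  obtain ⟨code, hcode⟩ := exists_injective_nat (Option (S ⊕ Fin (t + 1)))
  have h1 : IntCovered k (HH r k code x B) := int_cov hr code x
  have h2 : ((t + 1 : ℕ) : ℕ∞) ≤ tau (HH r k code x B) := by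
    unfold tau
    refine le_iInf₂ fun W hW => ?_
    exact_mod_cast tau_ge hr hcode hR ht hg W hW
  exact h2.trans (le_iSup (fun H : {H : HG r // IntCovered k H} => tau H.1) ⟨_, h1⟩)

end Pool.Agent.R982.HC.Hyp
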