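import Pool.Agent.R982.HC.Defs
import Pool.Agent.R982.TC.B4
import Pool.Agent.R982.TC.Design

/-!
# Existence of robust structures
-/

open Finset

namespace Pool.Agent.R982.HC.Main

theorem robust_ok : St_Robust := by
  intro lam hlam
  obtain ⟨ε, hε, N1, hproc⟩ := Pool.Agent.R982.TC.Process.process_ok lam hlam
  obtain ⟨N2, hdes⟩ := Pool.Agent.R982.TC.Design.design_ok lam ε hε
  refine ⟨max N1 N2, ?_⟩
  intro p hp hpN
  have : Fact p.Prime := ⟨hp⟩
  have hcard : Fintype.card (ZMod p) = p := ZMod.card p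
  obtain ⟨π, hπ⟩ := hdes p (le_trans (le_max_right _ _) hpN)
  have h1 := hproc (ZMod p) (by rw [hcard]; exact le_trans (le_max_left _ _) hpN) π hπ
  have h2 : ∃ x : Fin (64 * Fintype.card (ZMod p)) → (Fin lam × ZMod p) → ZMod p,
      Robust (64 * Fintype.card (ZMod p)) (Fin lam × ZMod p) (ZMod p) x
        (4 * Fintype.card (ZMod p) ^ 2) (2 * Fintype.card (ZMod p)) :=
    ⟨fun j v => (π j v.1).symm v.2, h1⟩
  rw [hcard] at h2
  obtain ⟨x, hx⟩ := h2
  refine ⟨Fin lam × ZMod p, ZMod p, inferInstance, ⟨(⟨0, hlam⟩, 0)⟩, inferInstance, x, ?_, hx⟩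
  rw [Fintype.card_prod, Fintype.card_fin, hcard]

end Pool.Agent.R982.HC.Main
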